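import Pool.Agent.W_448rd_h10.RdZ
import Pool.Agent.W_448so_h39.FJ
import Pool.Agent.W_448so_h63.FK

/-!
# INTERFACE of the window `j - 1` in case B (MP_448cb3_co, G2)

`i + 1 = j`, `S = SS i t` the part of the top `t`, `b = (st i S).card` its number of sites,
`V = ZS i S` its window series.  The five constants of a part are `I2.al 3 b V`, `I2.be 5 b V`,
`So.Q6 b V`, `T8.Q8 b V`, `T8.Q10 b V`.

* `totals` : the five totals, unconditional;
* `vals_open` : the five constants of a part without twins and flips, any number of sites;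
* `vals_big` : the constants (3,1), (5,2), (8,3), (10,4) of a part with at least four sites;
* `vals_small` : (8,3), (10,4) of a part with at most three sites, twins and flips allowed.
-/

set_option autoImplicit false

namespace Pool.Agent.GaussPoset.W1

set_option linter.unusedSectionVars false

open Finset Win
open Pool.Agent.GaussPoset.Wd (NJ SS)
open Pool.Agent.GaussPoset.Win.I2 (bb VV)
open Pool.Agent.GaussPoset.Win.SO (N1f N5f mem_N5f F5 mem_F5 O5 mem_O5)
open Pool.Agent.GaussPoset.Win.Rd (NfC mem_NfC NfS ETs mem_ETs PrS)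
open Pool.Agent.GaussPoset.Win.Pn (Tws mem_Tws)

universe u

variable {P : Type u} [Fintype P] [PartialOrder P] [DecidableEq P] {r j i : ℕ}

/-- every top is the top of itself -/
lemma image_top : univ.image (topOf : P → Tops P) = univ := by
  ext t
  simp only [mem_image, mem_univ, true_and, iff_true]
  exact ⟨(t : P), Wd.topOf_top t⟩

section nj

variable (h : NJ P r j) (hij : i + 1 = j) (hi1 : 1 ≤ i)
include h hij

lemma split : Split (i + 2) (topOf : P → Tops P) := by
  rw [show i + 2 = j + 1 by omega]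
  exact h.split

lemma SS_eq (t : Tops P) : cext (i + 2) (topOf : P → Tops P) t = SS i t := by
  rw [show i + 2 = j + 1 by omega]
  exact h.cext_eq (by omega) t

lemma bb_eq (t : Tops P) : bb i (i + 2) (topOf : P → Tops P) t = (st i (SS i t)).card := by
  rw [show i + 2 = j + 1 by omega]
  exact h.bb_eq (by omega) t

lemma VV_eq (t : Tops P) : VV i (i + 2) (topOf : P → Tops P) t = ZS i (SS i t) := by
  rw [show i + 2 = j + 1 by omega]
  exact h.VV_eq (by omega) t

/-- a sum over the parts -/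
lemma sum_parts (F : ℕ → PowerSeries A → ℤ) :
    ∑ a ∈ univ.image (topOf : P → Tops P), F (bb i (i + 2) topOf a) (VV i (i + 2) topOf a) =
      ∑ t : Tops P, F (st i (SS i t)).card (ZS i (SS i t)) := by
  rw [image_top]
  refine sum_congr rfl fun t _ => ?_
  rw [bb_eq h hij, VV_eq h hij]

include hi1

/-- THE FIVE TOTALS of the window `j - 1` in case B -/
theorem totals (hb : 1 ≤ (lv P i).card) :
    (∑ t : Tops P, I2.al 3 (st i (SS i t)).card (ZS i (SS i t)) = 0) ∧
    (∑ t : Tops P, I2.be 5 (st i (SS i t)).card (ZS i (SS i t)) =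
      -((So.Z2s i (topOf : P → Tops P)).card : ℤ)) ∧
    (∑ t : Tops P, So.Q6 (st i (SS i t)).card (ZS i (SS i t)) =
      2 * ∑ v ∈ So.Z2s i (topOf : P → Tops P), So.env i v -
        ((So.TWs i (topOf : P → Tops P)).card : ℤ) -
          2 * ((So.N5s i (topOf : P → Tops P)).card : ℤ)) ∧
    (∑ t : Tops P, T8.Q8 (st i (SS i t)).card (ZS i (SS i t)) =
      ∑ z ∈ Pn.X3 i (topOf : P → Tops P), Pn.Wn i topOf 3 z +
        ((Pn.PR i (topOf : P → Tops P) 3).card : ℤ)) ∧
    (∑ t : Tops P, T8.Q10 (st i (SS i t)).card (ZS i (SS i t)) =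
      2 * ∑ z ∈ Pn.X3 i (topOf : P → Tops P), Pn.Wn i topOf 4 z +
        2 * ((So.N5s i (topOf : P → Tops P)).card : ℤ) -
          ((So.Z2s i (topOf : P → Tops P)).card : ℤ) -
            2 * ((Pn.PR i (topOf : P → Tops P) 3).card : ℤ) -
              2 * ((Pn.DB i (topOf : P → Tops P)).card : ℤ)) := by
  have H := h.g.H
  have hir : i + 1 ≤ r := by have := h.g.hr; omega
  have hκ : Split (i + 2) (topOf : P → Tops P) := split h hij
  have hP := Pn.nj_P10' h hij hi1
  have hg : Win.Good P i := h.g.good i (by omega)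
  have g : GoodTo P r (i + 1) := by rw [hij]; exact h.g
  obtain ⟨-, -, h3, -⟩ := T8.prod_ten (univ.image (topOf : P → Tops P))
    (bb i (i + 2) topOf) (VV i (i + 2) topOf) hP
    (fun a _ => by rw [T8.cg_cf (by omega), So.cf_zero]; exact I2.eps_VV H (by omega) a)
  rw [So.sum_bb hκ, T8.cg_cf (by omega), So.cf_three, So.al3_prod H (by omega) hκ] at h3
  have h3' : ∑ a ∈ univ.image (topOf : P → Tops P), I2.al 3 (bb i (i + 2) topOf a)
      (VV i (i + 2) topOf a) = 0 := by
    rw [h3]
    refine sum_congr rfl fun a _ => ?_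
    rw [T8.cg_cf (by omega), So.cf_three]
  have h5 := So.tot_five_Z H hi1 hir hg hκ hb (fun a ha => (hP a ha).p6)
  have h6 := So.tot_six_Z H hi1 hir hg hκ hb (So.hu_of g) (fun a ha => (hP a ha).p6)
  have h8 := Pn.nj_tot8' h hij hi1 hb
  have h10 := Pn.nj_tot10' h hij hi1 hb
  rw [sum_parts h hij (I2.al 3)] at h3'
  rw [sum_parts h hij (I2.be 5)] at h5
  rw [sum_parts h hij So.Q6] at h6
  rw [sum_parts h hij T8.Q8] at h8
  rw [sum_parts h hij T8.Q10] at h10
  exact ⟨h3', h5, h6, h8, by linarith⟩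

/-- the inner joins over a pendant and a three-site element: the two descriptions agree -/
theorem nfc_eq (t : Tops P) : NfC i (SS i t) = N5f i (SS i t) := by
  classical
  have H := h.g.H
  have hT := h.noTT hij hi1
  have hC : Part (i + 1) (SS i t) := h.part (by omega) (by omega) t
  -- a three-site element below the window
  have site : ∀ {z : P}, lev z = i + 2 → sts i z = (uc z).biUnion uc := fun hz => Rd.sts_bi H hz
  ext a
  rw [mem_NfC, mem_N5f]
  constructor
  · rintro ⟨z, z2, w, w2, y, S⟩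
    obtain ⟨l1, l2, l3, l4, l5⟩ := S.lv H
    have ma := S.la
    have hzC : z ∈ SS i t := hC.up S.mc (mem_uc.1 (by rw [S.ua]; simp))
    have e1 : sts i z = uc w ∪ uc w2 := by
      rw [site l1, S.uz, biUnion_insert, singleton_biUnion]
    have e2 : sts i z2 = uc y := by
      rw [site l2, S.uz2, singleton_biUnion]
    have c1 := card_union_add_card_inter (uc w) (uc w2)
    have c2 := card_union_add_card_inter (uc w ∪ uc w2) (uc y)
    have s1 := S.cw
    have s2 := S.cw2
    have s3 := S.cy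
    have s4 := S.c5
    obtain ⟨x, hx1, hx2⟩ := hT z l1 w (by rw [S.uz]; simp) w2 (by rw [S.uz]; simp) S.ww s1
    have c3 : 1 ≤ (uc w ∩ uc w2).card := card_pos.2 ⟨x, mem_inter.2 ⟨hx1, hx2⟩⟩
    refine ⟨S.mc, Or.inl ⟨by omega, z2, z, ?_, ?_, by rw [S.ua, pair_comm], ?_⟩⟩
    · exact mem_PD.2 ⟨l2, by rw [S.uz2, card_singleton], y,
        mem_uc.1 (by rw [S.uz2]; simp), s3⟩
    · refine mem_ZL.2 ⟨hzC, l1, ?_⟩
      rw [← card_sts, e1]
      omega
    · rw [e1, e2, disjoint_comm, disjoint_iff_inter_eq_empty, ← card_eq_zero]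
      omega
  · rintro ⟨mc, ⟨hl, p, w, hp, hw, hu, hd⟩ | ⟨hl, p, w, hp, hw, hu, hd⟩⟩
    · obtain ⟨p1, p2, y0, p3, p4⟩ := mem_PD.1 hp
      obtain ⟨w1, w2, w3⟩ := mem_ZL.1 hw
      obtain ⟨y, hy⟩ := card_eq_one.1 p2
      have hyy : y0 = y := by
        rw [← mem_uc, hy, mem_singleton] at p3
        exact p3
      subst hyy
      have hc2 := card_uc_of_up H w2 w3
      obtain ⟨c, d, hcd, hcd2⟩ := card_eq_two.1 hc2
      have e1 : sts i w = uc c ∪ uc d := by
        rw [site w2, hcd2, biUnion_insert, singleton_biUnion]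
      have e2 : sts i p = uc y0 := by
        rw [site p1, hy, singleton_biUnion]
      have h3 : (uc c ∪ uc d).card = 3 := by rw [← e1, card_sts, w3]
      have c1 := card_union_add_card_inter (uc c) (uc d)
      have b1 := uc_card_le H c
      have b2 := uc_card_le H d
      have h7 : ∃ x, x ∈ uc c ∧ x ∈ uc d := by
        by_cases h8 : (uc c).card = 2
        · exact hT w w2 c (by rw [hcd2]; simp) d (by rw [hcd2]; simp) hcd h8
        · obtain ⟨x, hx1, hx2⟩ := hT w w2 d (by rw [hcd2]; simp) c (by rw [hcd2]; simp) hcd.symm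
            (by omega)
          exact ⟨x, hx2, hx1⟩
      obtain ⟨x, hx1, hx2⟩ := h7
      have c3 : 1 ≤ (uc c ∩ uc d).card := card_pos.2 ⟨x, mem_inter.2 ⟨hx1, hx2⟩⟩
      have la := lev_uc H (show p ∈ uc a by rw [hu]; simp)
      rw [e1, e2] at hd
      obtain ⟨s, hs⟩ := card_pos.1 (show 0 < (uc y0).card by omega)
      refine ⟨w, p, c, d, y0, mc, by omega, by rw [hu, pair_comm], hcd2, hy, ?_, hcd, ?_, ?_,
        by omega, by omega, p4, ?_⟩
      · rintro rfl
        omega
      · rintro rfl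
        exact disjoint_left.1 hd hs (mem_union_left _ hs)
      · rintro rfl
        exact disjoint_left.1 hd hs (mem_union_right _ hs)
      · rw [union_comm, card_union_of_disjoint hd]
        omega
    · exfalso
      obtain ⟨p1, p2, u0, p3, p4⟩ := mem_PU.1 hp
      obtain ⟨w1, w2, w3⟩ := mem_ZU.1 hw
      obtain ⟨u, hu0⟩ := card_eq_one.1 p2
      have huu : u0 = u := by
        rw [← mem_dc, hu0, mem_singleton] at p3
        exact p3
      subst huu
      have hne : p ≠ w := by
        rintro rfl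
        have h1 : stD i p = dc u0 := ClE_stD H p1 hu0
        rw [← card_stD, h1] at w3
        omega
      have m1 : p ⋖ a := mem_dc.1 (by rw [hu]; simp)
      have m2 : w ⋖ a := mem_dc.1 (by rw [hu]; simp)
      have hg : Win.Good P (i - 2) := h.g.good (i - 2) (by omega)
      have h1 := hg p w (by omega) (by omega) hne
      have h2 : 0 < ucv p w := by
        unfold ucv
        exact card_pos.2 ⟨a, mem_filter.2 ⟨mem_univ _, m1, m2⟩⟩
      rw [h1] at h2
      unfold dcv at h2
      obtain ⟨v, hv⟩ := card_pos.1 h2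
      rw [mem_filter] at hv
      have h3 : v = u0 := by
        have := mem_dc.2 hv.2.1
        rw [hu0, mem_singleton] at this
        exact this
      subst h3
      obtain ⟨s, hs⟩ := card_pos.1 (show 0 < (dc v).card by omega)
      have h4 : s ∈ stD i p := by
        rw [ClE_stD H p1 hu0]
        exact hs
      have h5 : s ∈ stD i w := (mem_stD_iff H w2).2 ⟨v, mem_dc.2 hv.2.2, hs⟩
      exact disjoint_left.1 hd h4 h5

/-- inner joins over a pendant and a three-site element need five sites -/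
theorem n5f_small (t : Tops P) (h4 : (st i (SS i t)).card ≤ 4) : N5f i (SS i t) = ∅ := by
  classical
  have H := h.g.H
  have hC : Part (i + 1) (SS i t) := h.part (by omega) (by omega) t
  rw [← nfc_eq h hij hi1, eq_empty_iff_forall_notMem]
  intro a ha
  obtain ⟨z, z2, w, w2, y, S⟩ := mem_NfC.1 ha
  obtain ⟨l1, l2, l3, l4, l5⟩ := S.lv H
  have up2 : ∀ {z : P}, z ∈ uc a → ∀ {w : P}, w ∈ uc z → lev w = i + 1 →
      uc w ⊆ st i (SS i t) := by
    intro z hz w hw hl s hs
    have := lev_uc H hs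
    exact mem_st.2 ⟨hC.up (hC.up (hC.up S.mc (mem_uc.1 hz)) (mem_uc.1 hw)) (mem_uc.1 hs),
      by omega⟩
  have h5 : uc w ∪ uc w2 ∪ uc y ⊆ st i (SS i t) := by
    refine union_subset (union_subset ?_ ?_) ?_
    · exact up2 (z := z) (by rw [S.ua]; simp) (by rw [S.uz]; simp) l3
    · exact up2 (z := z) (by rw [S.ua]; simp) (by rw [S.uz]; simp) l4
    · exact up2 (z := z2) (by rw [S.ua]; simp) (by rw [S.uz2]; simp) l5
  have h6 := card_le_card h5
  rw [S.c5] at h6
  omega

/-- the charges of a part without a flip -/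
theorem al3_chg (t : Tops P) (hF : F5 i (SS i t) = ∅) :
    I2.al 3 (st i (SS i t)).card (ZS i (SS i t)) = ∑ z ∈ Chs i (SS i t), chg i (SS i t) z := by
  classical
  have h1 := sum_chg (S := SS i t) h.g.H (i := i) (fun _ => True)
  simp only [filter_true] at h1
  rw [h1, Pn.nj_al3 h hij hi1 t hF]
  ring

/-- (6,2) of a part with (5,2) equal to zero -/
theorem q6_open (t : Tops P) (h5 : I2.be 5 (st i (SS i t)).card (ZS i (SS i t)) = 0) :
    So.Q6 (st i (SS i t)).card (ZS i (SS i t)) =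
      Win.QQ i (SS i t) + 2 * ((N1f i (SS i t)).card : ℤ) + 2 * ((N5f i (SS i t)).card : ℤ) := by
  have hs := SS_eq h hij t
  have hb := card_pos.2 (Pn.nj_st h hij t)
  subst hij
  obtain ⟨psi, hM⟩ := good_mat h.g.H (h.g.good i (by omega))
  obtain ⟨lo, hi, e, C⟩ := Cp.comp_exists h.g.H t.2 h.g.hr h.g.good
  have hno : ∀ z : P, lev z = i + 2 → ¬ Hul.Jn z := fun z hz => h.no z (by omega)
  have K := cm5_no h.g hi1 hno t C.toWin
  rw [hs] at K
  obtain ⟨-, g2⟩ := K.five hno hM hb
  obtain ⟨g3, g4⟩ := g2 h5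
  have Q := (K.to6 (K.ncl g3) (K.nfl hM g4)).ps6 hM
  have h6 := SO.PS6.six' Q hb
  unfold So.Q6
  rw [So.cf_three, So.cf_five, So.cf_six, h5, mul_zero, mul_zero, add_zero]
  exact h6

/-- THE CONSTANTS OF A PART WITH AT LEAST FOUR SITES, twins allowed -/
theorem vals_big (t : Tops P) (h4 : 4 ≤ (st i (SS i t)).card) :
    I2.al 3 (st i (SS i t)).card (ZS i (SS i t)) = ∑ z ∈ Chs i (SS i t), chg i (SS i t) z ∧
    I2.be 5 (st i (SS i t)).card (ZS i (SS i t)) = -((Tws i (SS i t)).card : ℤ) ∧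
    T8.Q8 (st i (SS i t)).card (ZS i (SS i t)) = ((ETs i (SS i t)).card : ℤ) -
      ∑ q ∈ Tws i (SS i t), ∑ z ∈ (Chs i (SS i t)).filter
        (fun z => ¬ Disjoint (sit i z) (sit i q.1)), chg i (SS i t) z ∧
    T8.Q10 (st i (SS i t)).card (ZS i (SS i t)) = ((Tws i (SS i t)).card : ℤ) ^ 2 -
      2 * ((PrS i (SS i t)).card : ℤ) - 2 * ((N5f i (SS i t)).card : ℤ) := by
  obtain ⟨lo, hi, e, C⟩ := Cp.comp_exists h.g.H t.2 h.g.hr h.g.good
  have hc := h.card_SS (i := i) (by omega) C
  obtain ⟨-, h3, h5, h8, h10⟩ := h.vals4 hij hi1 C (by omega)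
  rw [nfc_eq h hij hi1] at h10
  rw [T8.cg_cf (by omega), So.cf_three] at h3
  rw [T8.cg_cf (by omega), So.cf_five] at h5
  exact ⟨h3, h5, h8, h10⟩

/-- THE CONSTANTS (8,3), (10,4) OF A PART WITH AT MOST THREE SITES, twins and flips allowed -/
theorem vals_small (t : Tops P) (h3 : (st i (SS i t)).card ≤ 3) :
    I2.be 5 (st i (SS i t)).card (ZS i (SS i t)) =
      -((Tws i (SS i t)).card : ℤ) - ((F5 i (SS i t)).card : ℤ) ∧
    T8.Q8 (st i (SS i t)).card (ZS i (SS i t)) =
      I2.al 3 (st i (SS i t)).card (ZS i (SS i t)) *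
        (-((Tws i (SS i t)).card : ℤ) - ((F5 i (SS i t)).card : ℤ)) ∧
    T8.Q10 (st i (SS i t)).card (ZS i (SS i t)) =
      (((Tws i (SS i t)).card : ℤ) + ((F5 i (SS i t)).card : ℤ)) ^ 2 := by
  have h5 := Pn.nj_be5 h hij hi1 t
  refine ⟨h5, ?_, ?_⟩
  · rw [Pn.nj_Q8_small h hij t h3, h5]
  · rw [Pn.nj_Q10_small h hij t (by omega), h5]
    ring

/-- THE FIVE CONSTANTS OF A PART WITHOUT TWINS AND FLIPS, any number of sites -/
theorem vals_open (t : Tops P) (hT : Tws i (SS i t) = ∅) (hF : F5 i (SS i t) = ∅) :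
    I2.al 3 (st i (SS i t)).card (ZS i (SS i t)) = ∑ z ∈ Chs i (SS i t), chg i (SS i t) z ∧
    I2.be 5 (st i (SS i t)).card (ZS i (SS i t)) = 0 ∧
    So.Q6 (st i (SS i t)).card (ZS i (SS i t)) =
      Win.QQ i (SS i t) + 2 * ((N1f i (SS i t)).card : ℤ) + 2 * ((N5f i (SS i t)).card : ℤ) ∧
    T8.Q8 (st i (SS i t)).card (ZS i (SS i t)) = 0 ∧
    T8.Q10 (st i (SS i t)).card (ZS i (SS i t)) = -2 * ((N5f i (SS i t)).card : ℤ) := by
  classical
  have h5 : I2.be 5 (st i (SS i t)).card (ZS i (SS i t)) = 0 := by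
    rw [Pn.nj_be5 h hij hi1 t, hT, hF, card_empty]
    norm_num
  refine ⟨al3_chg h hij hi1 t hF, h5, q6_open h hij hi1 t h5, ?_⟩
  rcases Nat.lt_or_ge 3 (st i (SS i t)).card with h4 | h4
  · obtain ⟨-, -, h8, h10⟩ := vals_big h hij hi1 t h4
    have e1 : ETs i (SS i t) = ∅ := by
      obtain ⟨psi, hM⟩ := good_mat h.g.H (h.g.good i (by omega))
      rw [eq_empty_iff_forall_notMem]
      intro s hs
      obtain ⟨p0, y0, S⟩ := mem_ETs.1 hs
      have h1 := (S.T.tws h.g.H)
      have h2 := mem_Tws.2 h1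
      rw [hT] at h2
      exact absurd h2 (notMem_empty _)
    have e2 : PrS i (SS i t) = ∅ := by
      unfold PrS
      rw [hT]
      simp
    rw [hT, e1] at h8
    rw [hT, e2] at h10
    refine ⟨?_, ?_⟩
    · rw [h8]
      simp
    · rw [h10]
      simp
  · obtain ⟨-, h8, h10⟩ := vals_small h hij hi1 t h4
    rw [hT, hF] at h8 h10
    rw [h8, h10, n5f_small h hij hi1 t (by omega)]
    simp

end nj

end Pool.Agent.GaussPoset.W1
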