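import Pool.Agent.W_448win_h80.R3B
import Pool.Agent.W_448fin_h16.FnC

/-!
# The rotated rows with four sites, window `j - 1`: the share of the pendant (MP_448cb3_co, G2)

The pendant of the part at the window `j - 1` exists only for the word OC OO OO.
-/

set_option autoImplicit false

namespace Pool.Agent.GaussPoset.R3

set_option linter.unusedSectionVars false

open Finset Win St Wd Win.W4 EK
open Pool.Agent.GaussPoset.Win.Pn
open Pool.Agent.GaussPoset.Win.Pf
open Pool.Agent.GaussPoset.Win.SO (N1f mem_N1f N5f F5 mem_F5)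
open Pool.Agent.GaussPoset.Win.Rd (sts_bi)

universe u

variable {P : Type u} [Fintype P] [PartialOrder P] [DecidableEq P] {r j i : ℕ}
  {t : Tops P} {lo hi : ℕ → ℕ} {e : ℕ → ℕ → P} {x : ℕ → P} {c : ℕ → ℤ} {β : ℤ}

/-- the values for the word OC OO OO -/
structure Oc (i : ℕ) (lo hi : ℕ → ℕ) : Prop where
  i5 : 5 ≤ i
  l0 : lo (i + 1) = 0
  h0 : hi (i + 1) = 3
  l1 : lo i = 0
  h1 : hi i = 2
  l2 : lo (i - 1) = 0
  h2 : hi (i - 1) = 1
  l3 : lo (i - 2) = 0
  h3 : hi (i - 2) = 1
  l4 : lo (i - 3) = 0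
  h4 : hi (i - 3) = 0

/-- the number of private children -/
lemma kc_le_two (H : Gr P r) (z : P) : kc z ≤ 2 := by
  have h1 : ks z ⊆ dc z := fun y hy => mem_dc.2 (mem_uc.1 (by
    rw [mem_ks.1 hy]; exact mem_singleton_self _))
  have h2 := card_le_card h1
  have h3 := dc_card_le H z
  unfold kc
  omega

lemma sum_kc_le (H : Gr P r) (i : ℕ) (p : P) :
    ∑ z ∈ zs i (topOf : P → Tops P) p, kc z ≤ 2 * zc i (topOf : P → Tops P) p := by
  have h1 : ∑ z ∈ zs i (topOf : P → Tops P) p, kc z ≤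
      ∑ _z ∈ zs i (topOf : P → Tops P) p, (2 : ℤ) := sum_le_sum fun z _ => kc_le_two H z
  rw [sum_const, nsmul_eq_mul] at h1
  unfold zc
  linarith

section row

variable (h : NJ P r j) (hij : i + 1 = j) (hi1 : 1 ≤ i) (B : RowB P j t 3 x c β)
include h hij hi1 B

/-- the sites of the pendant are the covers of `x 1` -/
lemma sit_p {p : P} (hp : p ∈ PD P i) (hu : uc p = {x 1}) : sit i p = uc (x 1) :=
  sit_PDs h.g.H hp hu

omit h hij hi1 in
/-- a common cover of two elements of the row -/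
lemma adj_x {k l : ℕ} (hkl : k < l) (hl : l ≤ 3) (hd : ¬ Disjoint (uc (x k)) (uc (x l))) :
    l = k + 1 := by
  classical
  by_contra hne
  have a3 := B.ucv_x k l hkl hl
  rw [if_neg hne] at a3
  rw [not_disjoint_iff] at hd
  obtain ⟨w, w1, w2⟩ := hd
  have h1 : w ∈ univ.filter (fun y => x k ⋖ y ∧ x l ⋖ y) :=
    mem_filter.2 ⟨mem_univ _, mem_uc.1 w1, mem_uc.1 w2⟩
  have h2 : (univ.filter (fun y => x k ⋖ y ∧ x l ⋖ y)).card = 0 := a3
  rw [card_eq_zero.1 h2] at h1
  exact notMem_empty _ h1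

/-- the near lower elements which meet the sites of the pendant -/
lemma nLp_le {p : P} (hp : p ∈ PD P i) (hu : uc p = {x 1}) (ht : (topOf p : Tops P) = t) :
    (nLp i p).card ≤ 3 := by
  classical
  have H := h.g.H
  have h1 : nLp i p ⊆ {x 0, x 1, x 2} := by
    intro w hw
    obtain ⟨w1, w2⟩ := mem_nLp.1 hw
    rw [sit_p h hij hi1 B hp hu] at w2
    have hwt : (topOf w : Tops P) = t := by
      rw [not_disjoint_iff] at w2
      obtain ⟨v, v1, v2⟩ := w2
      have e1 := h.split (mem_uc.1 v1) (by omega)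
      have e2 := h.split (mem_uc.1 v2) (by have := B.row.lev_x 1 (by omega); omega)
      have e3 := B.row.kap 1 (by omega)
      rw [e1, ← e2, e3]
    obtain ⟨k, hk, hwk⟩ := B.row.surj w (by omega) hwt
    have hk4 : k = 0 ∨ k = 1 ∨ k = 2 ∨ k = 3 := by omega
    rw [mem_insert, mem_insert, mem_singleton]
    rcases hk4 with rfl | rfl | rfl | rfl
    · exact Or.inl hwk.symm
    · exact Or.inr (Or.inl hwk.symm)
    · exact Or.inr (Or.inr hwk.symm)
    · exfalso
      rw [← hwk, disjoint_comm] at w2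
      have := adj_x B (k := 1) (l := 3) (by omega) le_rfl w2
      omega
  exact (card_le_card h1).trans card_le_three

/-- the near upper elements: at most two for the word OC OO OO -/
lemma nUp_le (C : Cp.Comp (i + 1) (t : P) lo hi e) (D : Oc i lo hi) {p : P} (hp : p ∈ PD P i)
    (hu : uc p = {x 1}) : (nUp i p).card ≤ 2 := by
  classical
  have H := h.g.H
  have d5 := D.i5
  have h1 : nUp i p ⊆ {e (i - 1) 0, e (i - 1) 1} := by
    intro w hw
    obtain ⟨w1, w2⟩ := mem_nUp.1 hw
    rw [sit_p h hij hi1 B hp hu, not_disjoint_iff] at w2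
    obtain ⟨v, v1, v2⟩ := w2
    have hvt : v ≤ (t : P) := by
      have e2 := h.split (mem_uc.1 v2) (by have := B.row.lev_x 1 (by omega); omega)
      have e3 := B.row.kap 1 (by omega)
      have e4 := le_topOf v
      rw [← e2, e3] at e4
      exact e4
    have hwt : w ≤ (t : P) := by
      refine Cp.up_le H (fun l hl => h.g.good l hl) t.2 hvt ?_ (mem_dc.1 v1).le
      have := lev_dc H v1
      omega
    obtain ⟨a, a1, a2, a3⟩ := C.surj w hwt (by omega)
    have lw : lev w = i - 1 := by omega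
    rw [lw] at a1 a2 a3
    rw [D.l2] at a1
    rw [D.h2] at a2
    rw [mem_insert, mem_singleton]
    have : a = 0 ∨ a = 1 := by omega
    rcases this with rfl | rfl
    · exact Or.inl a3.symm
    · exact Or.inr a3.symm
  exact (card_le_card h1).trans card_le_two

/-- the private children of the pendant -/
lemma kc_FL {p : P} (hp : p ∈ PD P i) (ht : (topOf p : Tops P) = t) :
    kc p ≤ ((FL i (SS i t)).card : ℤ) := by
  have hlp := (mem_PD.1 hp).1
  have hpS : p ∈ SS i t := (h.mem (by omega) t (by omega)).2 (by rw [← ht]; exact le_topOf p)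
  rw [nj_kc h hij hi1 t hpS hlp]
  have h1 : FLo (SS i t) p ⊆ FL i (SS i t) := by
    intro y hy
    obtain ⟨y1, y2⟩ := mem_FLo.1 hy
    exact mem_FL.2 ⟨y1, p, hp, y2⟩
  exact_mod_cast card_le_card h1

/-- the share of the pendant is nonnegative if there is no flip -/
lemma shr_open (C : Cp.Comp (i + 1) (t : P) lo hi e) (D : Oc i lo hi) (c1 : c 1 = 0)
    (u0 : (uc (x 0)).card = 1) (u3 : (uc (x 3)).card = 1) (hF : F5 i (SS i t) = ∅)
    {p : P} (hp : p ∈ PD P i) (ht : (topOf p : Tops P) = t) (hu : uc p = {x 1}) :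
    0 ≤ shr wR i p := by
  classical
  have H := h.g.H
  have d5 := D.i5
  have hb := bal_R h hij hi1 B c1 u0 u3 (fun T => ¬ Disjoint T (sit i p))
  have hT := tws_R h hij hi1 B c1 u0 u3
  have hk := kc_FL h hij hi1 B hp ht
  have n1 := nLp_le h hij hi1 B hp hu ht
  have n2 := nUp_le h hij hi1 B C D hp hu
  have hS := sum_kc_le H i p
  have g : GoodTo P r (i + 1) := by rw [hij]; exact h.g
  have hU : (FU' i (SS i t)).card = 0 := by
    rw [C.toWin.card_FU g t.2 (i := i) (by omega) (S := SS i t)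
      (fun y hy => h.mem (by omega) t (by omega))]
    unfold Win.fuw
    rw [D.l3, D.l4, D.h3, D.h4, if_neg (by omega), if_neg (by omega)]
  subst ht
  have e5 := nj_net5 h hij hi1 hp hF
  have e7 := nj_net7 h hij hi1 hp
  rw [hT, hF, filter_empty, card_empty] at e7
  have e5' : Pn.rho i (topOf : P → Tops P) 5 p - A3 i (topOf p) =
      - ((FL i (SS i (topOf p))).card : ℤ) := by
    unfold A3
    rw [e5, hU]
    have := hb
    push_cast
    linarith
  have e7' : Pn.rho i (topOf : P → Tops P) 7 p - B5 i (topOf p) = 0 := by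
    unfold B5
    rw [e7]
    norm_num
  have hnn : nn i p ≤ 5 := by
    unfold nn
    have n1' : ((nLp i p).card : ℤ) ≤ 3 := by exact_mod_cast n1
    have n2' : ((nUp i p).card : ℤ) ≤ 2 := by exact_mod_cast n2
    linarith
  have hz : 0 ≤ zc i (topOf : P → Tops P) p := by unfold zc; positivity
  have hz1 : 0 ≤ zc i (topOf : P → Tops P) p * (zc i (topOf : P → Tops P) p - 1) := by
    rcases Int.le_iff_eq_or_lt.1 hz with h1 | h1
    · rw [← h1]; norm_num
    · exact mul_nonneg hz (by linarith [Int.add_one_le_iff.2 h1])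
  have hFL : (0 : ℤ) ≤ ((FL i (SS i (topOf p))).card : ℤ) := by positivity
  unfold shr
  rw [e5', e7']
  simp only [wR]
  set Z := zc i (topOf : P → Tops P) p
  set F := ((FL i (SS i (topOf p))).card : ℤ)
  have k1 : Z * (kc p + nn i p) ≤ Z * (F + 5) := mul_le_mul_of_nonneg_left (by linarith) hz
  have k2 : 0 ≤ Z * F := mul_nonneg hz hFL
  nlinarith

/-- the part and the pendant at the window `j - 1` with a flip -/
lemma flip_val (C : Cp.Comp (i + 1) (t : P) lo hi e) (D : Oc i lo hi) (c1 : c 1 = 0)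
    (u0 : (uc (x 0)).card = 1) (u3 : (uc (x 3)).card = 1) {p y q u a s b : P}
    (ht : (topOf p : Tops P) = t) (F : Flp i (SS i t) p y q u a s b) :
    4 * ((N1f i (SS i t)).card : ℤ) ≤ 2 * own1 wR i t + shr wR i p := by
  classical
  have H := h.g.H
  have d5 := D.i5
  have hb := bal_R h hij hi1 B c1 u0 u3 (fun _ => True)
  simp only [filter_true] at hb
  obtain ⟨-, -, hZU, hrow⟩ := nj_flip_row h hij hi1 t C F
  rw [D.l0, D.l1, D.l2, D.l3, D.l4, D.h0, D.h1, D.h2, D.h3, D.h4] at hrow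
  rcases hrow with ⟨-, hh, -⟩ | ⟨-, -, r1, r2, r3⟩
  · omega
  rw [if_pos (by norm_num)] at r1
  rw [if_pos rfl, if_neg (by norm_num)] at r2
  rw [if_neg (by omega)] at r3
  have hA := nj_flip_al3 h hij hi1 t F
  rw [r1, r2, r3] at hA
  have hA' : A3 i t = ((FL i (SS i t)).card : ℤ) := by
    unfold A3
    rw [hA]
    push_cast
    linarith
  have hown := nj_flip_own h hij hi1 wR t F
  rw [own_eq, hA', r1, r2, r3] at hown
  have hS := sum_kc_le H i p
  have hz : 0 ≤ zc i (topOf : P → Tops P) p := by unfold zc; positivity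
  have hzk := nj_zc_kc h hij hi1 (p := p) F.lp
  have hkc := nj_kc h hij hi1 t F.mp F.lp
  obtain ⟨psi, hM⟩ := good_mat h.g.H (h.g.good i (by omega))
  have Q := nj_pso h hij hi1 hM t
  rw [← FL_eq Q F] at hkc
  have hN : (0 : ℤ) ≤ ((N1f i (SS i t)).card : ℤ) := by positivity
  subst ht
  have hshr := nj_flip_shr h hij hi1 wR F
  rw [hA', r2] at hshr
  rw [hshr]
  have ho : own1 wR i (topOf p) = ((FL i (SS i (topOf p))).card : ℤ) ^ 2 -
      3 * (FL i (SS i (topOf p))).card + 2 + 2 * (N1f i (SS i (topOf p))).card := by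
    unfold own2 at hown
    simp only [wR] at hown ⊢
    push_cast at hown
    linarith
  rw [ho]
  simp only [wR]
  rw [hkc] at hzk
  set Z := zc i (topOf : P → Tops P) p
  obtain ⟨k, hk⟩ : ∃ k, k = (FL i (SS i (topOf p))).card := ⟨_, rfl⟩
  rw [← hk] at hzk ⊢
  have hZ2 : Z ≤ 2 - k := by linarith
  push_cast
  have hk3 : k = 0 ∨ k = 1 ∨ k = 2 := by
    have : (k : ℤ) ≤ 2 := by linarith
    have : k ≤ 2 := by exact_mod_cast this
    omega
  rcases hk3 with rfl | rfl | rfl
  · push_cast at hZ2 ⊢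
    have hZ : Z = 0 ∨ Z = 1 ∨ Z = 2 := by omega
    rcases hZ with hZ | hZ | hZ <;> rw [hZ] at hS ⊢ <;> linarith
  · push_cast at hZ2 ⊢
    have hZ : Z = 0 ∨ Z = 1 := by omega
    rcases hZ with hZ | hZ <;> rw [hZ] at hS ⊢ <;> linarith
  · push_cast at hZ2 ⊢
    have hZ : Z = 0 := by omega
    rw [hZ] at hS ⊢
    linarith

end row

end Pool.Agent.GaussPoset.R3
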