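import Pool.Agent.W_448win_h80.R3A
import Pool.Agent.W_448win_h80.W1
import Pool.Agent.W_448rc_h10.RcI
import Pool.Agent.W_448pn_h63.QbC
import Pool.Agent.W_448kf_h15.KfN
import Pool.Agent.W_448j6_h22.KbL

/-!
# The rotated rows with four sites, window `j - 1` (MP_448cb3_co, G2)

`i + 1 = j`, the row `x 0 .. x 3` at the level `j`, no element below `{x 0, x 1}`, one element below
`{x 0, x 3}`; both ends have one upper cover, so there are three sites at the window `j - 1`.
-/

set_option autoImplicit false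

namespace Pool.Agent.GaussPoset.R3

set_option linter.unusedSectionVars false

open Finset Win St Wd Win.W4 EK
open Pool.Agent.GaussPoset.Win.Pn
open Pool.Agent.GaussPoset.Win.SO (N1f mem_N1f N5f F5 mem_F5)
open Pool.Agent.GaussPoset.Win.Rd (sts_bi)

universe u

variable {P : Type u} [Fintype P] [PartialOrder P] [DecidableEq P] {r j i : ℕ}
  {t : Tops P} {lo hi : ℕ → ℕ} {e : ℕ → ℕ → P} {x : ℕ → P} {c : ℕ → ℤ} {β : ℤ}

/-- the weights of helper16 -/
def wR : Wt := ⟨-1, 9, 1, 4, 3, -1, 2, 13, 0⟩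

/-- the window `j` -/
lemma own2_R (j : ℕ) (t : Tops P) : own2 wR j t =
    2 * Lv j (cext (j + 1) (topOf : P → Tops P) t) -
      3 * I2.al 2 (st j (cext (j + 1) (topOf : P → Tops P) t)).card
        (ZS j (cext (j + 1) (topOf : P → Tops P) t)) +
        13 * wv j (cext (j + 1) (topOf : P → Tops P) t) := by
  unfold own2 F2 F3 F4 F6 Lv wv I2.bb I2.VV
  simp only [wR]
  ring

section row

variable (h : NJ P r j) (hij : i + 1 = j) (hi1 : 1 ≤ i) (B : RowB P j t 3 x c β)
include h hij hi1 B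

/-- the number of sites of the window `j - 1` -/
lemma three (u0 : (uc (x 0)).card = 1) (u3 : (uc (x 3)).card = 1) :
    (st i (SS i t)).card = 3 := by
  obtain ⟨-, h2, -⟩ := h.inner hij hi1 B
  rw [h2 (by omega), u0, u3]

/-- the only inner edge with two double ends -/
lemma Ed_one (u0 : (uc (x 0)).card = 1) (u3 : (uc (x 3)).card = 1) {k : ℕ} (hk : k ∈ Ed x 3) :
    k = 1 := by
  obtain ⟨h1, h2, h3⟩ := mem_Ed.1 hk
  have hk3 : k = 0 ∨ k = 1 ∨ k = 2 := by omega
  rcases hk3 with rfl | rfl | rfl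
  · omega
  · rfl
  · rw [show 2 + 1 = 3 by norm_num] at h3
    omega

/-- no twins -/
lemma tws_R (c1 : c 1 = 0) (u0 : (uc (x 0)).card = 1) (u3 : (uc (x 3)).card = 1) :
    Tws i (SS i t) = ∅ := by
  classical
  have h1 := h.tws_test hij hi1 B (fun _ => True)
  simp only [filter_true] at h1
  have h2 : Et x 3 c = ∅ := by
    rw [eq_empty_iff_forall_notMem]
    intro k hk
    obtain ⟨k1, k2⟩ := mem_Et.1 hk
    rw [Ed_one h hij hi1 B u0 u3 k1, c1] at k2
    norm_num at k2
  rw [h2, card_empty] at h1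
  exact card_eq_zero.1 (by exact_mod_cast h1)

/-- as many lower as upper elements over three sites -/
lemma bal_R (c1 : c 1 = 0) (u0 : (uc (x 0)).card = 1) (u3 : (uc (x 3)).card = 1)
    (R : Finset P → Prop) [DecidablePred R] :
    (((ZL i (SS i t)).filter (fun z => R (sit i z))).card : ℤ) -
      (((ZU i (SS i t)).filter (fun z => R (sit i z))).card : ℤ) = 0 := by
  rw [h.bal_test hij hi1 B R]
  refine sum_eq_zero fun k hk => ?_
  rw [Ed_one h hij hi1 B u0 u3 (mem_filter.1 hk).1, c1]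

/-- the own part of the window `j - 1` without a flip -/
lemma own1_open (c1 : c 1 = 0) (u0 : (uc (x 0)).card = 1) (u3 : (uc (x 3)).card = 1)
    (hF : F5 i (SS i t) = ∅) : 2 * ((N1f i (SS i t)).card : ℤ) ≤ own1 wR i t := by
  have h3 := three h hij hi1 B u0 u3
  have hT := tws_R h hij hi1 B c1 u0 u3
  obtain ⟨-, v5, v6, v8, v10⟩ := W1.vals_open h hij hi1 t hT hF
  rw [nj_QQ_three h hij hi1 t (by omega) hF, nj_N5_three h hij hi1 t (by omega), card_empty] at v6
  rw [nj_N5_three h hij hi1 t (by omega), card_empty] at v10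
  have e3 : A3 i t = I2.al 3 (st i (SS i t)).card (ZS i (SS i t)) := rfl
  have e5 : B5 i t = 0 := v5
  have e6 : C6 i t = _ := v6
  have e8 : C8 i t = 0 := v8
  have e10 : C10 i t = _ := v10
  unfold own1
  rw [e5, e6, e8, e10, e3]
  simp only [wR]
  push_cast
  set a := I2.al 3 (st i (SS i t)).card (ZS i (SS i t))
  have h1 : 0 ≤ a * (a - 1) := by
    rcases le_or_gt a 0 with h2 | h2
    · exact mul_nonneg_of_nonpos_of_nonpos h2 (by linarith)
    · exact mul_nonneg (by linarith) (by linarith)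
  nlinarith

/-- the private elements below the middle element with three sites -/
lemma DE_le : (DE j (cext (j + 1) (topOf : P → Tops P) t) x 1).card ≤ (N1f i (SS i t)).card := by
  classical
  have H := h.g.H
  rw [h.cext_eq (i := i) (by omega) t]
  refine card_le_card fun z hz => ?_
  obtain ⟨z1, z2, z3⟩ := mem_DE.1 hz
  obtain ⟨l1, l2, y0, y1, y2⟩ := mem_PD.1 z2
  obtain ⟨y, hy⟩ := card_eq_one.1 l2
  have hyy : y0 = y := by
    rw [← mem_uc, hy, mem_singleton] at y1
    exact y1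
  subst hyy
  have ly := lev_uc H (mem_uc.2 y1)
  have hs : uc y0 = {x 1, x 2} := by
    rw [← sit_PDs H z2 hy, z3]
    rfl
  have hyS : y0 ∈ SS i t := by
    have hC : Part (j + 1) (SS i t) := h.part (by omega) le_rfl t
    exact hC.up z1 y1
  refine mem_N1f.2 ⟨z1, Or.inl ⟨by omega, y0, mem_ZL.2 ⟨hyS, by omega, ?_⟩, hy⟩⟩
  rw [← card_sts, sts_bi H (by omega), hs, biUnion_insert, singleton_biUnion]
  obtain ⟨g1, -, -⟩ := h.inner hij hi1 B
  have a1 := g1 1 (by omega) (by omega)
  have a2 := g1 2 (by omega) (by omega)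
  have a3 := B.ucv_x 1 2 (by omega) (by omega)
  rw [if_pos rfl] at a3
  have a4 : (uc (x 1) ∩ uc (x 2)).card = ucv (x 1) (x 2) := by
    unfold ucv
    congr 1
    ext w
    rw [mem_inter, mem_uc, mem_uc, mem_filter]
    simp
  rw [a3] at a4
  have a5 := card_union_add_card_inter (uc (x 1)) (uc (x 2))
  omega

/-- a pendant of the part is the private child of `x 1` -/
lemma pd_x1 (u0 : (uc (x 0)).card = 1) (u3 : (uc (x 3)).card = 1) (hp2 : pen (x 2) = ∅) {p : P}
    (hp : p ∈ PD P i) (ht : (topOf p : Tops P) = t) : uc p = {x 1} := by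
  classical
  have H := h.g.H
  obtain ⟨l1, l2, y0, y1, y2⟩ := mem_PD.1 hp
  obtain ⟨y, hy⟩ := card_eq_one.1 l2
  have hyy : y0 = y := by
    rw [← mem_uc, hy, mem_singleton] at y1
    exact y1
  subst hyy
  have ly := lev_uc H (mem_uc.2 y1)
  have hyt : (topOf y0 : Tops P) = t := by
    rw [← ht]
    exact (h.split y1 (by omega)).symm
  obtain ⟨k, hk, hxk⟩ := B.row.surj y0 (by omega) hyt
  have hk4 : k = 0 ∨ k = 1 ∨ k = 2 ∨ k = 3 := by omega
  rcases hk4 with rfl | rfl | rfl | rfl
  · rw [hxk] at u0; omega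
  · rw [hy, hxk]
  · exfalso
    have : p ∈ pen (x 2) := mem_pen.2 ⟨by rw [hxk]; exact y1, l2⟩
    rw [hp2] at this
    exact absurd this (notMem_empty _)
  · rw [hxk] at u3; omega

/-- no pendant: no share -/
lemma no_pd (u0 : (uc (x 0)).card = 1) (u3 : (uc (x 3)).card = 1) (hp1 : pen (x 1) = ∅)
    (hp2 : pen (x 2) = ∅) : (PD P i).filter (fun p => (topOf p : Tops P) = t) = ∅ := by
  classical
  rw [eq_empty_iff_forall_notMem]
  intro p hp
  obtain ⟨hp, ht⟩ := mem_filter.1 hp
  have h1 := pd_x1 h hij hi1 B u0 u3 hp2 hp ht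
  have : p ∈ pen (x 1) := mem_pen.2 ⟨mem_uc.1 (by rw [h1]; exact mem_singleton_self _),
    (mem_PD.1 hp).2.1⟩
  rw [hp1] at this
  exact absurd this (notMem_empty _)

end row

end Pool.Agent.GaussPoset.R3
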